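import Pool.Agent.Helper92.Ru.GoalsV

/-! P10: the norm at an infinite place (packet 1867). -/

set_option autoImplicit false

open NumberField

namespace Pool.Agent.Helper92.Ru

theorem normInf (hIP : InfProd) : NormInf := by
  intro k _ _ L _ _ _ v y
  have hfin : FiniteDimensional k L := by
    have : IsScalarTower ℚ k L := inferInstance
    exact FiniteDimensional.right ℚ k L
  have : Algebra.IsSeparable k L := inferInstance
  let alg : Algebra k ℂ := v.embedding.toAlgebra
  have key : v.embedding (Algebra.norm k y) = ∏ σ : L →ₐ[k] ℂ, σ y :=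
    Algebra.norm_eq_prod_embeddings (K := k) (L := L) ℂ y
  have h1 : v (Algebra.norm k y) = ∏ σ : L →ₐ[k] ℂ, ‖σ y‖ := by
    rw [← InfinitePlace.norm_embedding_eq, key, norm_prod]
  have h2 : ∏ σ : L →ₐ[k] ℂ, ‖σ y‖ = ∏ ρ : AbE L v, InfinitePlace.mk ρ.1 y := by
    refine Fintype.prod_bijective
      (fun σ : L →ₐ[k] ℂ => (⟨σ.toRingHom, by
        ext z
        exact σ.commutes z⟩ : AbE L v)) ⟨?_, ?_⟩ _ _ ?_
    · intro σ τ h
      ext z
      have h' := congrArg Subtype.val h
      exact RingHom.congr_fun h' z
    · intro ρ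
      refine ⟨{ ρ.1 with
        commutes' := fun z => by
          have := RingHom.congr_fun ρ.2 z
          exact this }, ?_⟩
      apply Subtype.ext
      ext z
      rfl
    · intro σ
      rw [InfinitePlace.apply]
      rfl
  rw [h1, h2, ← Finset.prod_pow]
  exact hIP k L v (fun w => w y)

end Pool.Agent.Helper92.Ru
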